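import Mathlib

/-!
A digraph on `n` vertices without directed cycles of length at most `k` has spectral radius less
than `n / (k log 2)`.
-/

set_option autoImplicit false

open Finset

namespace Pool.Agent.MP_ad5ca6_co

variable {V : Type} (E : V → V → Prop)

/-- There is a walk of length `j` from `a` to `b`. -/
def Reach (j : ℕ) (a b : V) : Prop :=
  ∃ w : ℕ → V, w 0 = a ∧ w j = b ∧ ∀ i < j, E (w i) (w (i + 1))

variable {E}

lemma Reach.tail {j : ℕ} {a b c : V} (h : Reach E j a b) (hc : E b c) : Reach E (j + 1) a c := by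
  obtain ⟨w, h0, h1, h2⟩ := h
  refine ⟨fun i => if i ≤ j then w i else c, by simp [h0], by simp, fun i hi => ?_⟩
  dsimp only
  rw [if_pos (by omega)]
  split_ifs with h
  · exact h2 i (by omega)
  · rwa [show i = j by omega, h1]

/-- A shortest closed walk is a cycle. -/
lemma cycle_of_reach (hE : ∀ a, ¬ E a a) {k j : ℕ} {a : V} (h1 : 1 ≤ j) (hj : j ≤ k)
    (h : Reach E j a a) : ∃ m : ℕ, 2 ≤ m ∧ m ≤ k ∧ ∃ v : Fin m → V, Function.Injective v ∧
      ∀ i : Fin m, E (v i) (v (finRotate m i)) := by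
  induction j using Nat.strong_induction_on generalizing a with
  | _ j ih =>
  obtain ⟨w, h0, hw, h2⟩ := h
  by_cases hi : ∃ s t, s < t ∧ t < j ∧ w s = w t
  · obtain ⟨s, t, hst, htj, e⟩ := hi
    refine ih (t - s) (by omega) (a := w s) (by omega) (by omega)
      ⟨fun i => w (s + i), rfl, ?_, fun i hi => h2 (s + i) (by omega)⟩
    dsimp only
    rw [show s + (t - s) = t by omega, e]
  · obtain ⟨m, rfl⟩ : ∃ m, j = m + 1 := ⟨j - 1, by omega⟩
    refine ⟨m + 1, ?_, hj, fun i => w i, fun s t e => ?_, fun i => ?_⟩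
    · by_contra h3
      obtain rfl : m = 0 := by omega
      have := h2 0 one_pos
      rw [hw, h0] at this
      exact hE a this
    · by_contra h3
      rcases lt_or_gt_of_ne h3 with h4 | h4
      exacts [hi ⟨s, t, h4, t.2, e⟩, hi ⟨t, s, h4, s.2, e.symm⟩]
    · have := h2 i i.2
      dsimp only
      rw [finRotate_apply, Fin.val_add_one]
      split_ifs with h3
      · rw [h3, Fin.val_last, hw] at this
        rwa [h3, Fin.val_last, h0]
      · exact this

/-- Distance levels from a vertex, cut at `k`. -/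
lemma levels {k : ℕ} (hk : 0 < k) (y : V) (h : ∀ j, 1 ≤ j → j ≤ k → ¬ Reach E j y y) :
    ∃ d : V → ℕ, (∀ v, d v ≤ k) ∧ (∀ v, v ≠ y → 1 ≤ d v) ∧ (∀ a b, E a b → d b ≤ d a + 1) ∧
      (∀ x, E y x → d x ≤ 1) ∧ ∀ u, E u y → d u = k := by
  classical
  have ex : ∀ v, ∃ j, j = k ∨ Reach E j y v := fun v => ⟨k, Or.inl rfl⟩
  have le : ∀ v, Nat.find (ex v) ≤ k := fun v => Nat.find_min' _ (Or.inl rfl)
  refine ⟨fun v => Nat.find (ex v), le, fun v hv => ?_, fun a b hab => ?_, fun x hx => ?_,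
    fun u hu => ?_⟩
  · refine (Nat.find_pos _).2 ?_
    rintro (h1 | ⟨w, h1, h2, -⟩)
    · omega
    · exact hv (h2.symm.trans h1)
  · rcases Nat.find_spec (ex a) with h1 | h1
    · have := le b
      dsimp only
      omega
    · exact Nat.find_min' _ (Or.inr (h1.tail hab))
  · exact Nat.find_min' _ (Or.inr (Reach.tail ⟨fun _ => y, rfl, rfl, by simp⟩ hx))
  · rcases Nat.find_spec (ex u) with h1 | h1
    · exact h1
    · by_contra h2
      have := le u
      exact h _ (by omega) (by dsimp only at h2; omega) (h1.tail hu)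

lemma sum_inj {α β : Type} [DecidableEq β] {s : Finset α} {t : Finset β} (g : α → β)
    (hg : Set.InjOn g s) (hm : ∀ a ∈ s, g a ∈ t) (w : β → ℝ) (hw : ∀ b, 0 ≤ w b) :
    ∑ a ∈ s, w (g a) ≤ ∑ b ∈ t, w b := by
  rw [← sum_image hg]
  exact sum_le_sum_of_subset_of_nonneg (image_subset_iff.2 hm) fun b _ _ => hw b

/-- The set lies in the levels `1, 2, ...` and meets each of the levels `1, ..., k`. -/
def Hit (d : V → ℕ) (k : ℕ) (S : Finset V) : Prop :=
  (∀ v ∈ S, 1 ≤ d v) ∧ ∀ j, 1 ≤ j → j ≤ k → ∃ v ∈ S, d v = j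

open Classical in
/-- The total weight of the sets that meet every level. -/
lemma hitting [Fintype V] {k : ℕ} {z : ℝ} (hz : 0 < z) (d : V → ℕ) (hd : ∀ v, d v ≤ k) :
    ∑ S ∈ univ.filter (Hit d k), z ^ S.card ≤ ((1 + z) ^ Fintype.card V / 2 ^ k) ^ 2 := by
  let L : Fin k → Finset V := fun j => univ.filter fun v => d v = j + 1
  have fib : ∀ S : Finset V, (∀ v ∈ S, 1 ≤ d v) →
      ∑ j : Fin k, (S.filter fun v => d v = j + 1).card = S.card := by
    intro S hS
    simp only [card_filter]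
    rw [sum_comm, card_eq_sum_ones]
    refine sum_congr rfl fun v hv => ?_
    have h1 := hS v hv
    have h2 := hd v
    rw [sum_eq_single (⟨d v - 1, by omega⟩ : Fin k) (fun j _ hj => if_neg fun h => hj ?_) (by simp),
      if_pos (by dsimp only; omega)]
    exact Fin.ext (by dsimp only; omega)
  calc _ = ∑ S ∈ univ.filter (Hit d k), ∏ j : Fin k, z ^ (S.filter fun v => d v = j + 1).card := by
        refine sum_congr rfl fun S hS => ?_
        rw [prod_pow_eq_pow_sum, fib S (mem_filter.1 hS).2.1]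
    _ ≤ ∑ p ∈ Fintype.piFinset fun j => (L j).powerset.erase ∅, ∏ j : Fin k, z ^ (p j).card := by
        refine sum_inj (fun (S : Finset V) (j : Fin k) => S.filter fun v => d v = j + 1) ?_ ?_
          (fun p => ∏ j : Fin k, z ^ (p j).card) fun p => by positivity
        · have key : ∀ S S' : Finset V, (∀ v ∈ S, 1 ≤ d v) →
              ((fun j : Fin k => S.filter fun v => d v = j + 1) =
                fun j : Fin k => S'.filter fun v => d v = j + 1) → S ⊆ S' := by
            intro S S' hS e v hv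
            have h1 := hS v hv
            have h2 := hd v
            have h3 := congrFun e ⟨d v - 1, by omega⟩
            dsimp only at h3
            exact (mem_filter.1 (h3 ▸ mem_filter.2 ⟨hv, by omega⟩)).1
          intro S hS S' hS' e
          exact Subset.antisymm (key S S' (mem_filter.1 hS).2.1 e)
            (key S' S (mem_filter.1 hS').2.1 e.symm)
        · intro S hS
          refine Fintype.mem_piFinset.2 fun j => mem_erase.2 ⟨?_, mem_powerset.2 ?_⟩
          · obtain ⟨v, h1, h2⟩ := (mem_filter.1 hS).2.2 (j + 1) (by omega) j.2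
            exact ne_empty_of_mem (mem_filter.2 ⟨h1, h2⟩)
          · exact filter_subset_filter _ (subset_univ _)
    _ = ∏ j : Fin k, ((1 + z) ^ (L j).card - 1) := by
        rw [← prod_univ_sum (fun j => (L j).powerset.erase ∅) fun _ T => z ^ T.card]
        refine prod_congr rfl fun j _ => ?_
        have h1 := sum_pow_mul_eq_add_pow z 1 (L j)
        simp only [one_pow, mul_one] at h1
        rw [sum_erase_eq_sub (empty_mem_powerset _), h1, add_comm, card_empty, pow_zero]
    _ ≤ ∏ j : Fin k, ((1 + z) ^ (L j).card / 2) ^ 2 := by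
        refine prod_le_prod (fun j _ => sub_nonneg.2 (one_le_pow₀ (by linarith))) fun j _ => ?_
        nlinarith [sq_nonneg ((1 + z) ^ (L j).card / 2 - 1)]
    _ = ((1 + z) ^ (∑ j : Fin k, (L j).card) / 2 ^ k) ^ 2 := by
        rw [prod_pow, prod_div_distrib, prod_pow_eq_pow_sum, prod_const, card_univ, Fintype.card_fin]
    _ ≤ _ := by
        gcongr
        · linarith
        · have h1 := fib (univ.filter fun v => 1 ≤ d v) fun v hv => (mem_filter.1 hv).2
          refine le_trans (le_of_eq ?_) (h1.le.trans (card_le_univ _))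
          refine sum_congr rfl fun j _ => congrArg card ?_
          ext v
          simp only [L, mem_filter, mem_univ, true_and]
          omega

variable (E) in
/-- Every vertex of `S` reaches `u` inside `S`, and no arc leads from `u` back into `S`. -/
def Good (S : Finset V) (u : V) : Prop :=
  u ∈ S ∧ (∀ x ∈ S, ¬ E u x) ∧ ∀ x ∈ S, Relation.ReflTransGen (fun a b => b ∈ S ∧ E a b) x u

lemma Good.unique {S : Finset V} {u u' : V} (h : Good E S u) (h' : Good E S u') : u = u' := by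
  rcases (h'.2.2 u h.1).cases_head with e | ⟨c, h1, -⟩
  exacts [e, absurd h1.2 (h.2.1 c h1.1)]

lemma Good.insert [DecidableEq V] (hE : ∀ a, ¬ E a a) {S : Finset V} {u v : V} (h : Good E S u)
    (huv : E u v) (hv : ∀ x ∈ S, ¬ E v x) : Good E (insert v S) v := by
  refine ⟨mem_insert_self _ _, fun x hx => ?_, fun x hx => ?_⟩
  · rcases mem_insert.1 hx with rfl | hx
    exacts [hE _, hv x hx]
  · rcases mem_insert.1 hx with rfl | hx
    · exact .refl
    · exact .tail (Relation.ReflTransGen.mono (p := fun a b => b ∈ Insert.insert v S ∧ E a b)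
        (fun a b h => ⟨mem_insert_of_mem h.1, h.2⟩) _ _ (h.2.2 x hx)) ⟨mem_insert_self _ _, huv⟩

lemma hits {S : Finset V} {d : V → ℕ} (hd : ∀ a b, E a b → d b ≤ d a + 1) {x u : V} (hx : x ∈ S)
    (h : Relation.ReflTransGen (fun a b => b ∈ S ∧ E a b) x u) {j : ℕ} (h1 : d x ≤ j)
    (h2 : j ≤ d u) : ∃ v ∈ S, d v = j := by
  induction h with
  | refl => exact ⟨x, hx, le_antisymm h1 h2⟩
  | @tail b c _ h3 ih =>
    rcases le_or_gt j (d b) with h4 | h4
    · exact ih h4
    · have := hd b c h3.2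
      exact ⟨c, h3.1, by omega⟩

open Classical in
theorem subinvariant [Fintype V] (hE : ∀ a, ¬ E a a) {k : ℕ} (hk : 0 < k)
    (h : ∀ y j, 1 ≤ j → j ≤ k → ¬ Reach E j y y) {z : ℝ} (hz : 0 < z) (f : V → ℝ)
    (h0 : ∀ v, 0 ≤ f v) (h1 : 0 < ∑ v, f v)
    (hf : ∀ u, f u ≤ z * ∑ v ∈ univ.filter (E u), f v) : 2 ^ k ≤ (1 + z) ^ Fintype.card V := by
  choose d d1 d2 d3 d4 d5 using fun y => levels hk y (h y)
  let w : Finset V × V → ℝ := fun p => z ^ p.1.card * f p.2
  have hw : ∀ p, 0 ≤ w p := fun p => mul_nonneg (by positivity) (h0 _)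
  let G : Finset (Finset V × V) := univ.filter fun p => Good E p.1 p.2
  let T : Finset ((Finset V × V) × V) := univ.filter fun q => Good E q.1.1 q.1.2 ∧ E q.1.2 q.2
  let H : V → Finset (Finset V) := fun y => univ.filter (Hit (d y) k)
  have nm : ∀ q ∈ T, q.2 ∉ q.1.1 := fun q hq hm =>
    (mem_filter.1 hq).2.1.2.1 _ hm (mem_filter.1 hq).2.2
  have a1 : ∑ p ∈ G, w p ≤ ∑ q ∈ T, z * w (q.1.1, q.2) := by
    have : ∑ q ∈ T, z * w (q.1.1, q.2) =
        ∑ p ∈ G, ∑ v ∈ univ.filter (E p.2), z * w (p.1, v) := by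
      refine sum_finset_product T G (fun p => univ.filter (E p.2)) fun q => ?_
      simp [T, G]
    rw [this]
    refine sum_le_sum fun p _ => ?_
    have := mul_le_mul_of_nonneg_left (hf p.2) (pow_pos hz p.1.card).le
    simp only [w, mul_sum] at this ⊢
    exact this.trans (le_of_eq (sum_congr rfl fun v _ => by ring))
  have a2 : ∑ q ∈ T.filter (fun q => ∀ x ∈ q.1.1, ¬ E q.2 x), z * w (q.1.1, q.2) ≤
      ∑ p ∈ G.filter (fun p => ¬ p.1.card = 1), w p := by
    refine le_trans (le_of_eq (sum_congr rfl fun q hq => ?_))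
      (sum_inj (fun q => (insert q.2 q.1.1, q.2)) ?_ ?_ w hw)
    · simp only [w]
      rw [card_insert_of_notMem (nm q (mem_filter.1 hq).1)]
      ring
    · rintro ⟨⟨S, u⟩, v⟩ hq ⟨⟨S', u'⟩, v'⟩ hq' e
      have n1 : v ∉ S := nm _ (mem_filter.1 hq).1
      have n2 : v' ∉ S' := nm _ (mem_filter.1 hq').1
      obtain ⟨e1, rfl⟩ := Prod.mk.inj e
      obtain rfl : S = S' := by rw [← erase_insert n1, e1, erase_insert n2]
      obtain rfl : u = u' :=
        (mem_filter.1 (mem_filter.1 hq).1).2.1.unique (mem_filter.1 (mem_filter.1 hq').1).2.1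
      rfl
    · intro q hq
      obtain ⟨hq1, hq2⟩ := mem_filter.1 hq
      obtain ⟨-, g, e⟩ := mem_filter.1 hq1
      refine mem_filter.2 ⟨mem_filter.2 ⟨mem_univ _, g.insert hE e hq2⟩, ?_⟩
      have := card_pos.2 ⟨_, g.1⟩
      dsimp only
      rw [card_insert_of_notMem (nm q hq1)]
      omega
  have a3 : ∑ q ∈ T.filter (fun q => ¬ ∀ x ∈ q.1.1, ¬ E q.2 x), z * w (q.1.1, q.2) ≤
      ∑ p ∈ univ.filter (fun p : Finset V × V => p.1 ∈ H p.2), z * w p := by
    refine sum_inj (fun q : (Finset V × V) × V => (q.1.1, q.2)) ?_ ?_ (fun p => z * w p)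
      fun p => mul_nonneg hz.le (hw p)
    · rintro ⟨⟨S, u⟩, v⟩ hq ⟨⟨S', u'⟩, v'⟩ hq' e
      obtain ⟨rfl, rfl⟩ := Prod.mk.inj e
      obtain rfl : u = u' :=
        (mem_filter.1 (mem_filter.1 hq).1).2.1.unique (mem_filter.1 (mem_filter.1 hq').1).2.1
      rfl
    · intro q hq
      obtain ⟨hq1, hq2⟩ := mem_filter.1 hq
      obtain ⟨-, g, e⟩ := mem_filter.1 hq1
      push Not at hq2
      obtain ⟨x, hx, hx'⟩ := hq2
      refine mem_filter.2 ⟨mem_univ _, mem_filter.2 ⟨mem_univ _, fun v hv => d2 _ v ?_,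
        fun j j1 j2 => hits (d3 _) hx (g.2.2 x hx) ((d4 _ x hx').trans j1) ?_⟩⟩
      · rintro rfl
        exact nm q hq1 hv
      · rwa [d5 _ _ e]
  have a4 : z * ∑ v, f v ≤ ∑ p ∈ G.filter (fun p => p.1.card = 1), w p := by
    rw [mul_sum]
    refine le_trans (le_of_eq (sum_congr rfl fun v _ => by simp [w]))
      (sum_inj (fun v => ({v}, v)) (fun a _ b _ e => (Prod.mk.inj e).2) (fun v _ => ?_) w hw)
    refine mem_filter.2 ⟨mem_filter.2 ⟨mem_univ _, mem_singleton_self _, ?_, ?_⟩, rfl⟩ <;>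
      intro x hx <;> rw [mem_singleton.1 hx]
    exact hE v
  have a5 : ∑ p ∈ univ.filter (fun p : Finset V × V => p.1 ∈ H p.2), z * w p ≤
      z * (∑ v, f v) * ((1 + z) ^ Fintype.card V / 2 ^ k) ^ 2 := by
    rw [sum_finset_product_right _ univ H (by simp), mul_sum, sum_mul]
    refine sum_le_sum fun y _ => ?_
    refine le_trans (le_of_eq ?_)
      (mul_le_mul_of_nonneg_left (hitting hz (d y) (d1 y)) (mul_nonneg hz.le (h0 y)))
    rw [mul_sum]
    exact sum_congr rfl fun S _ => by simp only [w]; ring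
  rw [← sum_filter_add_sum_filter_not G fun p => p.1.card = 1,
    ← sum_filter_add_sum_filter_not T fun q => ∀ x ∈ q.1.1, ¬ E q.2 x] at a1
  have a6 : 1 ≤ ((1 + z) ^ Fintype.card V / 2 ^ k) ^ 2 :=
    le_of_mul_le_mul_left (by linarith) (mul_pos hz h1)
  have a7 := (one_le_sq_iff₀ (by positivity)).1 a6
  rwa [le_div_iff₀ (by positivity), one_mul] at a7

open Classical in
theorem upper {n k : ℕ} (hk : 0 < k) (A : Matrix (Fin n) (Fin n) ℂ)
    (h01 : ∀ i j, A i j = 0 ∨ A i j = 1) (hd : ∀ i, A i i = 0) {μ : ℂ} (hμ : μ ∈ spectrum ℂ A)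
    (hb : 1 / Real.log 2 * (n / k) ≤ ‖μ‖) : ∃ m : ℕ, 2 ≤ m ∧ m ≤ k ∧
      ∃ v : Fin m → Fin n, Function.Injective v ∧ ∀ i : Fin m, A (v i) (v (finRotate m i)) = 1 := by
  by_contra hc
  have hE : ∀ a, ¬ A a a = 1 := fun a h => zero_ne_one ((hd a).symm.trans h)
  rw [spectrum.mem_iff, Matrix.isUnit_iff_isUnit_det, isUnit_iff_ne_zero, not_not,
    ← Matrix.exists_mulVec_eq_zero_iff] at hμ
  obtain ⟨x, hx, he⟩ := hμ
  rw [Matrix.sub_mulVec, Algebra.algebraMap_eq_smul_one, Matrix.smul_mulVec, Matrix.one_mulVec,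
    sub_eq_zero] at he
  obtain ⟨i, hi⟩ := Function.ne_iff.1 hx
  have n0 : (0 : ℝ) < n := by exact_mod_cast i.pos
  have k0 : (0 : ℝ) < k := by exact_mod_cast hk
  have l0 := Real.log_pos one_lt_two
  have m0 : 0 < ‖μ‖ := lt_of_lt_of_le (by positivity) hb
  have := subinvariant (E := fun a b => A a b = 1) hE hk
    (fun y j h1 h2 h => hc (cycle_of_reach hE h1 h2 h)) (inv_pos.2 m0) (fun v => ‖x v‖)
    (fun v => norm_nonneg _)
    (sum_pos' (fun v _ => norm_nonneg _) ⟨i, mem_univ _, norm_pos_iff.2 hi⟩) fun u => by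
      have h1 := congrFun he u
      simp only [Pi.smul_apply, smul_eq_mul, Matrix.mulVec, dotProduct] at h1
      rw [le_inv_mul_iff₀ m0, ← norm_mul, h1, sum_filter]
      refine (norm_sum_le _ _).trans (sum_le_sum fun v _ => ?_)
      rcases h01 u v with h | h <;> simp [h]
  rw [Fintype.card_fin] at this
  have h1 : (1 + ‖μ‖⁻¹) ^ n < Real.exp ‖μ‖⁻¹ ^ n :=
    pow_lt_pow_left₀ (by linarith [Real.add_one_lt_exp (inv_pos.2 m0).ne']) (by positivity)
      i.pos.ne'
  have h2 : (n : ℝ) * ‖μ‖⁻¹ ≤ k * Real.log 2 := by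
    rw [← div_eq_mul_inv, div_le_iff₀ m0]
    calc (n : ℝ) = k * Real.log 2 * (1 / Real.log 2 * (n / k)) := by field_simp
      _ ≤ _ := by gcongr
  have h3 := Real.exp_le_exp.2 h2
  rw [Real.exp_nat_mul, Real.exp_nat_mul, Real.exp_log two_pos] at h3
  linarith

end Pool.Agent.MP_ad5ca6_co
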