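import Mathlib

/-!
Walks in a finite relation without short cycles: a walk with at most `k` vertices is determined
by its vertex set; counting of walks that stay in a ball around a vertex.
-/

set_option autoImplicit false

namespace Pool.Agent.MP_ad5ca6_co

open Finset

variable {V : Type}

/-- There is a walk with `i` steps from `u` to `v`. -/
def Wk (R : V → V → Prop) : ℕ → V → V → Prop
  | 0, u, v => u = v
  | i + 1, u, v => ∃ w, Wk R i u w ∧ R w v

lemma Wk.append {R : V → V → Prop} {i : ℕ} {u w : V} (h : Wk R i u w) :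
    ∀ {j : ℕ} {v : V}, Wk R j w v → Wk R (i + j) u v
  | 0, _, h' => by
    have : w = _ := h'
    subst this
    exact h
  | j + 1, _, ⟨t, h1, h2⟩ => ⟨t, h.append h1, h2⟩

lemma Wk.single {R : V → V → Prop} {u v : V} (h : R u v) : Wk R 1 u v := ⟨u, rfl, h⟩

lemma Wk.flip {R : V → V → Prop} : ∀ {i : ℕ} {u v : V}, Wk R i u v →
    Wk (fun a b => R b a) i v u
  | 0, _, _, h => Eq.symm h
  | i + 1, u, v, ⟨w, h1, h2⟩ => by
    have h3 : Wk (fun a b => R b a) 1 v w := Wk.single h2
    have := h3.append h1.flip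
    rwa [add_comm] at this

lemma Wk.mono {R S : V → V → Prop} (hRS : ∀ a b, R a b → S a b) :
    ∀ {i : ℕ} {u v : V}, Wk R i u v → Wk S i u v
  | 0, _, _, h => h
  | _ + 1, _, _, ⟨w, h1, h2⟩ => ⟨w, Wk.mono hRS h1, hRS _ _ h2⟩

lemma Wk.exists_fun {R : V → V → Prop} : ∀ {i : ℕ} {u v : V}, Wk R i u v →
    ∃ f : ℕ → V, f 0 = u ∧ f i = v ∧ ∀ t, t < i → R (f t) (f (t + 1))
  | 0, u, _, h => ⟨fun _ => u, rfl, h, fun _ ht => absurd ht (Nat.not_lt_zero _)⟩
  | i + 1, u, v, ⟨w, h1, h2⟩ => by
    obtain ⟨f, f0, fi, hf⟩ := h1.exists_fun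
    refine ⟨fun t => if t ≤ i then f t else v, by simp [f0], by simp, fun t ht => ?_⟩
    have h3 : t ≤ i := by omega
    by_cases h4 : t + 1 ≤ i
    · simpa [h3, h4] using hf t (by omega)
    · have : t = i := by omega
      subst this
      simpa [fi] using h2

lemma Wk.of_fun {R : V → V → Prop} (f : ℕ → V) (s : ℕ) : ∀ j : ℕ,
    (∀ t, s ≤ t → t < s + j → R (f t) (f (t + 1))) → Wk R j (f s) (f (s + j))
  | 0, _ => rfl
  | j + 1, h => ⟨f (s + j), Wk.of_fun f s j fun t h1 h2 => h t h1 (by omega),
      h (s + j) (by omega) (by omega)⟩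

/-- Every closed walk has more than `k` steps and cannot be confined to `k` vertices. -/
def Good (R : V → V → Prop) (k : ℕ) : Prop :=
  ∀ (T : Finset V) (i : ℕ) (u : V), 0 < i →
    Wk (fun a b => R a b ∧ a ∈ T ∧ b ∈ T) i u u → k < i ∧ k < T.card

lemma Good.flip {R : V → V → Prop} {k : ℕ} (h : Good R k) : Good (fun a b => R b a) k :=
  fun T i u hi hw => h T i u hi (hw.flip.mono fun _ _ hab => ⟨hab.1, hab.2.2, hab.2.1⟩)

lemma Good.lt [Fintype V] {R : V → V → Prop} {k : ℕ} (h : Good R k) {i : ℕ} {u : V}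
    (hi : 0 < i) (hw : Wk R i u u) : k < i :=
  (h univ i u hi (hw.mono fun a b hab => ⟨hab, mem_univ a, mem_univ b⟩)).1

lemma good_of_no_cycle {R : V → V → Prop} {k : ℕ} (hl : ∀ a, ¬ R a a)
    (hc : ¬ ∃ m : ℕ, 2 ≤ m ∧ m ≤ k ∧ ∃ v : Fin m → V, Function.Injective v ∧
      ∀ i : Fin m, R (v i) (v (finRotate m i))) : Good R k := by
  classical
  intro T i
  induction i using Nat.strong_induction_on with
  | _ i ih =>
    intro u hi hw
    obtain ⟨f, f0, fi, hf⟩ := hw.exists_fun
    by_cases hinj : ∀ s t, s < t → t < i → f s ≠ f t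
    · have hinj' : Function.Injective fun s : Fin i => f s := by
        intro s t hst
        rcases lt_trichotomy (s : ℕ) t with h | h | h
        · exact absurd hst (hinj _ _ h t.2)
        · exact Fin.ext h
        · exact absurd hst.symm (hinj _ _ h s.2)
      have h2 : 2 ≤ i := by
        by_contra h
        have h1 : i = 1 := by omega
        subst h1
        have := (hf 0 one_pos).1
        rw [zero_add, f0, fi] at this
        exact hl _ this
      have hk : k < i := by
        by_contra h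
        refine hc ⟨i, h2, by omega, fun s => f s, hinj', fun s => ?_⟩
        obtain ⟨j, rfl⟩ : ∃ j, i = j + 1 := ⟨i - 1, by omega⟩
        have h3 := (hf s s.2).1
        by_cases hs : s = Fin.last j
        · subst hs
          rw [finRotate_last]
          simpa [f0, fi] using h3
        · have h4 : s < Fin.last j := Fin.lt_last_iff_ne_last.mpr hs
          have h5 : ((finRotate (j + 1) s : Fin (j + 1)) : ℕ) = s + 1 := by
            rw [finRotate_apply, Fin.val_add_one_of_lt h4]
          simpa only [h5] using h3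
      refine ⟨hk, lt_of_lt_of_le hk ?_⟩
      have h6 := card_le_card_of_injOn (s := (univ : Finset (Fin i))) (t := T)
        (fun s : Fin i => f s) (fun s _ => (hf s s.2).2.1) hinj'.injOn
      simpa using h6
    · push Not at hinj
      obtain ⟨s, t, hst, hti, he⟩ := hinj
      have h1 := Wk.of_fun (R := fun a b => R a b ∧ a ∈ T ∧ b ∈ T) f s (t - s)
        fun r _ h2 => hf r (by omega)
      rw [show s + (t - s) = t by omega, ← he] at h1
      have := ih (t - s) (by omega) _ (by omega) h1
      exact ⟨by omega, this.2⟩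

lemma chain_pairwise [DecidableEq V] {R : V → V → Prop} {T : Finset V} {l : List V}
    (hl : l.IsChain R) (hT : ∀ a ∈ l, a ∈ T) :
    l.Pairwise fun a b => ∃ i, 0 < i ∧ Wk (fun a b => R a b ∧ a ∈ T ∧ b ∈ T) i a b := by
  have : Trans (fun a b => ∃ i, 0 < i ∧ Wk (fun a b => R a b ∧ a ∈ T ∧ b ∈ T) i a b)
      (fun a b => ∃ i, 0 < i ∧ Wk (fun a b => R a b ∧ a ∈ T ∧ b ∈ T) i a b)
      (fun a b => ∃ i, 0 < i ∧ Wk (fun a b => R a b ∧ a ∈ T ∧ b ∈ T) i a b) :=
    ⟨fun ⟨i, hi, h1⟩ ⟨j, _, h2⟩ => ⟨i + j, by omega, h1.append h2⟩⟩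
  refine List.IsChain.pairwise ?_
  induction hl with
  | nil => exact List.IsChain.nil
  | singleton a => exact List.IsChain.singleton a
  | cons_cons h _ ih =>
    exact List.IsChain.cons_cons
      ⟨1, one_pos, Wk.single ⟨h, hT _ (by simp), hT _ (by simp)⟩⟩
      (ih fun a ha => hT a (List.mem_cons_of_mem _ ha))

lemma Good.nodup [DecidableEq V] {R : V → V → Prop} {k : ℕ} (h : Good R k) {l : List V}
    (hl : l.IsChain R) (hk : l.length ≤ k) : l.Nodup := by
  have h1 := chain_pairwise (T := l.toFinset) hl fun a ha => List.mem_toFinset.mpr ha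
  refine h1.imp ?_
  rintro a b ⟨i, hi, hw⟩ rfl
  have := (h _ i a hi hw).2
  have := List.toFinset_card_le l
  omega

/-- A walk with at most `k` vertices is determined by its vertex set. -/
lemma Good.eq_of_toFinset_eq [DecidableEq V] {R : V → V → Prop} {k : ℕ} (h : Good R k)
    {l₁ l₂ : List V} (h1 : l₁.IsChain R) (h2 : l₂.IsChain R) (k1 : l₁.length ≤ k)
    (k2 : l₂.length ≤ k) (he : l₁.toFinset = l₂.toFinset) : l₁ = l₂ := by
  have p1 := chain_pairwise (T := l₁.toFinset) h1 fun a ha => List.mem_toFinset.mpr ha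
  have p2 := chain_pairwise (T := l₁.toFinset) h2 fun a ha => he ▸ List.mem_toFinset.mpr ha
  refine List.Perm.eq_of_pairwise ?_ p1 p2
    (List.perm_of_nodup_nodup_toFinset_eq (h.nodup h1 k1) (h.nodup h2 k2) he)
  rintro a b - - ⟨i, hi, hw⟩ ⟨j, -, hw'⟩
  have := (h _ (i + j) a (by omega) (hw.append hw')).2
  have := List.toFinset_card_le l₁
  omega

lemma chain_wk {R : V → V → Prop} : ∀ {l : List V} {c : V}, (c :: l).IsChain R →
    ∀ v ∈ l, ∃ i, 0 < i ∧ i ≤ l.length ∧ Wk R i c v
  | [], _, _, _, hv => absurd hv List.not_mem_nil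
  | a :: l, c, h, v, hv => by
    obtain ⟨h1, h2⟩ := List.isChain_cons_cons.mp h
    rcases List.mem_cons.mp hv with rfl | hv
    · exact ⟨1, one_pos, by simp, Wk.single h1⟩
    · obtain ⟨i, hi, hl, hw⟩ := chain_wk h2 v hv
      exact ⟨1 + i, by omega, by simp; omega, (Wk.single h1).append hw⟩

/-- The distance from `c` to `v` (zero if there is no walk). -/
noncomputable def dist (R : V → V → Prop) (c v : V) : ℕ := sInf {i | Wk R i c v}

lemma dist_le {R : V → V → Prop} {c v : V} {i : ℕ} (h : Wk R i c v) : dist R c v ≤ i :=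
  Nat.sInf_le h

lemma wk_dist {R : V → V → Prop} {c v : V} {i : ℕ} (h : Wk R i c v) :
    Wk R (dist R c v) c v :=
  Nat.sInf_mem (s := {i | Wk R i c v}) ⟨i, h⟩

lemma wk_dist_of_pos {R : V → V → Prop} {c v : V} (h : 0 < dist R c v) :
    Wk R (dist R c v) c v := by
  by_cases hne : {i | Wk R i c v}.Nonempty
  · exact Nat.sInf_mem hne
  · rw [Set.not_nonempty_iff_eq_empty] at hne
    rw [dist, hne, Nat.sInf_empty] at h
    exact absurd h (lt_irrefl 0)

/-- A sub-invariant vector is bounded along any family of walks that contains an initial piece of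
every long walk. -/
lemma stop_le [Fintype V] [DecidableEq V] {R : V → V → Prop} [DecidableRel R] {x : V → ℝ} {z : ℝ}
    (hz : 0 ≤ z) (hx0 : ∀ v, 0 ≤ x v) (hx : ∀ u, x u ≤ z * ∑ v, if R u v then x v else 0)
    {ι : Type} (N : ℕ) : ∀ (u : V) (I : Finset ι) (g : ι → List V),
      (∀ l : List V, l.length = N → (u :: l).IsChain R → ∃ i ∈ I, g i <+: l) →
      x u ≤ ∑ i ∈ I, z ^ (g i).length * x ((g i).getLastD u) := by
  have hnil : ∀ (u : V) (I : Finset ι) (g : ι → List V), (∃ i ∈ I, g i = []) →
      x u ≤ ∑ i ∈ I, z ^ (g i).length * x ((g i).getLastD u) := by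
    rintro u I g ⟨i, hi, hg⟩
    have := single_le_sum (f := fun i => z ^ (g i).length * x ((g i).getLastD u))
      (fun j _ => mul_nonneg (pow_nonneg hz _) (hx0 _)) hi
    simpa [hg] using this
  induction N with
  | zero =>
    intro u I g h
    obtain ⟨i, hi, hg⟩ := h [] rfl (List.IsChain.singleton u)
    exact hnil u I g ⟨i, hi, List.prefix_nil.mp hg⟩
  | succ N ih =>
    intro u I g h
    by_cases h0 : ∃ i ∈ I, g i = []
    · exact hnil u I g h0
    push Not at h0
    have h1 : ∀ v, z * (if R u v then x v else 0) ≤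
        ∑ i ∈ I, if (g i).head? = some v then z ^ (g i).length * x ((g i).getLastD u) else 0 := by
      intro v
      by_cases huv : R u v
      · rw [if_pos huv, ← sum_filter]
        have h2 := ih v (I.filter fun i => (g i).head? = some v) (fun i => (g i).tail) (by
          intro l hl hc
          obtain ⟨i, hi, hg⟩ := h (v :: l) (by simp [hl]) (List.IsChain.cons_cons huv hc)
          obtain ⟨a, t, hat⟩ := List.exists_cons_of_ne_nil (h0 i hi)
          rw [hat, List.cons_prefix_cons] at hg
          exact ⟨i, mem_filter.mpr ⟨hi, by rw [hat, hg.1]; rfl⟩, by rw [hat]; exact hg.2⟩)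
        refine (mul_le_mul_of_nonneg_left h2 hz).trans (le_of_eq ?_)
        rw [mul_sum]
        refine sum_congr rfl fun i hi => ?_
        obtain ⟨hi1, hi2⟩ := mem_filter.mp hi
        obtain ⟨a, t, hat⟩ := List.exists_cons_of_ne_nil (h0 i hi1)
        rw [hat] at hi2 ⊢
        obtain rfl : a = v := by simpa using hi2
        simp only [List.tail_cons, List.length_cons, List.getLastD_cons]
        ring
      · rw [if_neg huv, mul_zero]
        exact sum_nonneg fun i _ => by
          split_ifs
          · exact mul_nonneg (pow_nonneg hz _) (hx0 _)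
          · exact le_rfl
    refine (hx u).trans ?_
    rw [mul_sum]
    refine (sum_le_sum fun v _ => h1 v).trans ?_
    rw [sum_comm]
    refine sum_le_sum fun i hi => ?_
    obtain ⟨a, t, hat⟩ := List.exists_cons_of_ne_nil (h0 i hi)
    rw [hat]
    simp

end Pool.Agent.MP_ad5ca6_co
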