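import Pool.Agent.MP_ad5ca6_co.Walks

/-!
Parsing a walk into an in-part, a centre and an out-part gives an upper bound for the modulus of
an eigenvalue of a digraph without short cycles.
-/

set_option autoImplicit false

namespace Pool.Agent.MP_ad5ca6_co

open Finset

variable {V : Type}

/-- The list `l` has a vertex at each distance `1, ..., h` from `c`. -/
def Hits (R : V → V → Prop) (c : V) (h : ℕ) (l : List V) : Prop :=
  ∀ i, 1 ≤ i → i ≤ h → ∃ v ∈ l, dist R c v = i

open Classical in
/-- Walks out of `c` with at most `k` further vertices that stay in the ball of radius `h` and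
either have exactly `k` further vertices or meet all its layers. -/
noncomputable def win [Fintype V] (R : V → V → Prop) (k h : ℕ) (c : V) : Finset (List V) :=
  (List.finite_length_le V k).toFinset.filter fun l =>
    (c :: l).IsChain R ∧ (∀ v ∈ l, dist R c v ≤ h) ∧ (l.length = k ∨ Hits R c h l)

open Classical in
/-- The punctured ball of radius `h` around `c`. -/
noncomputable def ball [Fintype V] (R : V → V → Prop) (h : ℕ) (c : V) : Finset V :=
  univ.filter fun v => 1 ≤ dist R c v ∧ dist R c v ≤ h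

lemma mem_win [Fintype V] {R : V → V → Prop} {k h : ℕ} {c : V} {l : List V} :
    l ∈ win R k h c ↔ l.length ≤ k ∧ (c :: l).IsChain R ∧ (∀ v ∈ l, dist R c v ≤ h) ∧
      (l.length = k ∨ Hits R c h l) := by
  simp [win]

lemma sum_powerset_pow [DecidableEq V] (S : Finset V) (z : ℝ) :
    ∑ T ∈ S.powerset, z ^ T.card = (1 + z) ^ S.card := by
  have := prod_one_add (f := fun _ : V => z) S
  simp only [prod_const] at this
  exact this.symm

lemma sum_card_eq_le [DecidableEq V] (S : Finset V) {z : ℝ} (hz : 0 ≤ z) (k : ℕ) :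
    ∑ T ∈ S.powerset with T.card = k, z ^ T.card ≤ (1 / 2) ^ k * (1 + z) ^ (2 * S.card) := by
  have h1 : ∑ T ∈ S.powerset with T.card = k, z ^ T.card =
      (1 / 2) ^ k * ∑ T ∈ S.powerset with T.card = k, (2 * z) ^ T.card := by
    rw [mul_sum]
    refine sum_congr rfl fun T hT => ?_
    rw [(mem_filter.mp hT).2, ← mul_pow]
    congr 1
    ring
  rw [h1]
  refine mul_le_mul_of_nonneg_left ?_ (by positivity)
  refine (sum_le_sum_of_subset_of_nonneg (filter_subset _ _) fun _ _ _ => by positivity).trans ?_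
  rw [sum_powerset_pow, pow_mul]
  exact pow_le_pow_left₀ (by positivity) (by nlinarith [sq_nonneg z]) _

lemma sum_hits_le [DecidableEq V] (S : Finset V) (D : V → ℕ) {z : ℝ} (hz : 0 ≤ z)
    (h : ℕ) (hS : ∀ v ∈ S, 1 ≤ D v ∧ D v ≤ h) (F : Finset (Finset V))
    (hF : ∀ T ∈ F, T ⊆ S ∧ ∀ i, 1 ≤ i → i ≤ h → ∃ v ∈ T, D v = i) :
    ∑ T ∈ F, z ^ T.card ≤ (1 / 4) ^ h * (1 + z) ^ (2 * S.card) := by
  set L : Fin h → Finset V := fun i => S.filter fun v => D v = i + 1 with hL
  have hcard : ∀ T ⊆ S, T.card = ∑ i : Fin h, (T ∩ L i).card := by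
    intro T hT
    have hpos : ∀ v ∈ T, D v - 1 < h := fun v hv => by
      have := hS v (hT hv)
      omega
    have h1 : T = univ.biUnion fun i : Fin h => T ∩ L i := by
      ext v
      simp only [mem_biUnion, mem_univ, true_and, mem_inter, hL, mem_filter]
      constructor
      · intro hv
        have := hS v (hT hv)
        exact ⟨⟨D v - 1, hpos v hv⟩, hv, hT hv, by simp only; omega⟩
      · rintro ⟨_, hv, -⟩
        exact hv
    conv_lhs => rw [h1]
    refine card_biUnion fun i _ j _ hij => ?_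
    simp only [Function.onFun]
    rw [disjoint_left]
    intro v hi hj
    have h2 := (mem_filter.mp (mem_inter.mp hi).2).2
    have h3 := (mem_filter.mp (mem_inter.mp hj).2).2
    exact hij (Fin.ext (by omega))
  have hinj : Set.InjOn (fun (T : Finset V) (i : Fin h) => T ∩ L i) F := by
    have key : ∀ T U : Finset V, T ⊆ S → (∀ i, T ∩ L i = U ∩ L i) → T ⊆ U := by
      intro T U hT he v hv
      have h1 := hS v (hT hv)
      have h2 : v ∈ T ∩ L ⟨D v - 1, by omega⟩ :=
        mem_inter.mpr ⟨hv, mem_filter.mpr ⟨hT hv, by simp only; omega⟩⟩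
      rw [he] at h2
      exact (mem_inter.mp h2).1
    intro T hT U hU he
    have hT' := (hF T hT).1
    have hU' := (hF U hU).1
    exact Subset.antisymm (key T U hT' fun i => congrFun he i)
      (key U T hU' fun i => (congrFun he i).symm)
  calc ∑ T ∈ F, z ^ T.card = ∑ T ∈ F, ∏ i : Fin h, z ^ (T ∩ L i).card := by
        refine sum_congr rfl fun T hT => ?_
        rw [prod_pow_eq_pow_sum, ← hcard T (hF T hT).1]
    _ = ∑ g ∈ F.image (fun (T : Finset V) (i : Fin h) => T ∩ L i),
          ∏ i : Fin h, z ^ (g i).card := by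
        rw [sum_image hinj]
    _ ≤ ∑ g ∈ Fintype.piFinset fun i : Fin h => (L i).powerset.erase ∅,
          ∏ i : Fin h, z ^ (g i).card := by
        refine sum_le_sum_of_subset_of_nonneg ?_ fun _ _ _ => by positivity
        intro g hg
        obtain ⟨T, hT, rfl⟩ := mem_image.mp hg
        obtain ⟨hT1, hT2⟩ := hF T hT
        refine Fintype.mem_piFinset.mpr fun i => mem_erase.mpr
          ⟨?_, mem_powerset.mpr inter_subset_right⟩
        obtain ⟨v, hv, hD⟩ := hT2 (i + 1) (by omega) (by omega)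
        exact nonempty_iff_ne_empty.mp
          ⟨v, mem_inter.mpr ⟨hv, mem_filter.mpr ⟨hT1 hv, hD⟩⟩⟩
    _ = ∏ i : Fin h, ∑ T ∈ (L i).powerset.erase ∅, z ^ T.card :=
        (prod_univ_sum (fun i : Fin h => (L i).powerset.erase ∅)
          fun _ (T : Finset V) => z ^ T.card).symm
    _ ≤ ∏ i : Fin h, (1 / 4 * (1 + z) ^ (2 * (L i).card)) := by
        refine prod_le_prod (fun _ _ => sum_nonneg fun _ _ => by positivity) fun i _ => ?_
        have h1 := add_sum_erase (L i).powerset (fun T => z ^ T.card) (empty_mem_powerset _)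
        rw [sum_powerset_pow] at h1
        simp only [card_empty, pow_zero] at h1
        rw [mul_comm 2, pow_mul]
        nlinarith [sq_nonneg ((1 + z) ^ (L i).card - 2)]
    _ = (1 / 4) ^ h * (1 + z) ^ (2 * S.card) := by
        rw [prod_mul_distrib, prod_const, card_univ, Fintype.card_fin, prod_pow_eq_pow_sum,
          ← mul_sum, hcard S subset_rfl]
        congr 3
        refine sum_congr rfl fun i _ => ?_
        rw [inter_eq_right.mpr (filter_subset _ _)]

lemma sum_win_le [Fintype V] {R : V → V → Prop} {k : ℕ} (hR : Good R k) (h : ℕ) (c : V) {z : ℝ}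
    (hz : 0 ≤ z) : ∑ l ∈ win R k h c, z ^ l.length ≤
      ((1 / 4) ^ h + (1 / 2) ^ k) * (1 + z) ^ (2 * (ball R h c).card) := by
  classical
  have hch : ∀ l ∈ win R k h c, l.IsChain R := fun l hl => (mem_win.mp hl).2.1.tail
  have hinj : Set.InjOn (fun l : List V => l.toFinset) (win R k h c) := fun l hl l' hl' he =>
    hR.eq_of_toFinset_eq (hch l hl) (hch l' hl') (mem_win.mp hl).1 (mem_win.mp hl').1 he
  have hlen : ∀ l ∈ win R k h c, l.toFinset.card = l.length := fun l hl =>
    List.toFinset_card_of_nodup (hR.nodup (hch l hl) (mem_win.mp hl).1)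
  have hball : ∀ v ∈ ball R h c, 1 ≤ dist R c v ∧ dist R c v ≤ h := fun v hv =>
    (mem_filter.mp hv).2
  obtain ⟨F, hF⟩ : ∃ F : Finset (Finset V), ∀ T, T ∈ F ↔
      T ⊆ ball R h c ∧ ∀ i, 1 ≤ i → i ≤ h → ∃ v ∈ T, dist R c v = i :=
    ⟨(ball R h c).powerset.filter fun T => ∀ i ∈ Icc 1 h, ∃ v ∈ T, dist R c v = i,
      fun T => by simp only [mem_filter, mem_powerset, mem_Icc, and_imp]⟩
  calc ∑ l ∈ win R k h c, z ^ l.length = ∑ l ∈ win R k h c, z ^ l.toFinset.card :=
        sum_congr rfl fun l hl => by rw [hlen l hl]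
    _ = ∑ T ∈ (win R k h c).image fun l : List V => l.toFinset, z ^ T.card := by
        rw [sum_image hinj]
    _ ≤ ∑ T ∈ F ∪ ((ball R h c).powerset.filter fun T => T.card = k), z ^ T.card := by
        refine sum_le_sum_of_subset_of_nonneg ?_ fun _ _ _ => by positivity
        intro T hT
        obtain ⟨l, hl, rfl⟩ := mem_image.mp hT
        obtain ⟨h1, h2, h3, h4⟩ := mem_win.mp hl
        have h5 : l.toFinset ∈ (ball R h c).powerset := by
          refine mem_powerset.mpr fun v hv => ?_
          have hv' := List.mem_toFinset.mp hv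
          refine mem_filter.mpr ⟨mem_univ _, ?_, h3 v hv'⟩
          obtain ⟨i, hi, hil, hw⟩ := chain_wk h2 v hv'
          by_contra h6
          have h7 := wk_dist hw
          rw [show dist R c v = 0 by omega] at h7
          have h8 : c = v := h7
          subst h8
          have := hR.lt hi hw
          omega
        rcases h4 with h4 | h4
        · exact mem_union_right _ (mem_filter.mpr ⟨h5, by rw [hlen l hl, h4]⟩)
        · refine mem_union_left _ ((hF _).mpr ⟨mem_powerset.mp h5, fun i i1 i2 => ?_⟩)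
          obtain ⟨v, hv, hD⟩ := h4 i i1 i2
          exact ⟨v, List.mem_toFinset.mpr hv, hD⟩
    _ ≤ (1 / 4) ^ h * (1 + z) ^ (2 * (ball R h c).card) +
          (1 / 2) ^ k * (1 + z) ^ (2 * (ball R h c).card) := by
        have h1 := sum_union_inter (s₁ := F)
          (s₂ := (ball R h c).powerset.filter fun T => T.card = k) (f := fun T => z ^ T.card)
        have h2 := sum_hits_le (ball R h c) (dist R c) hz h hball F fun T hT => (hF T).mp hT
        have h3 := sum_card_eq_le (ball R h c) hz k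
        have h4 : 0 ≤ ∑ T ∈ F ∩
          ((ball R h c).powerset.filter fun T => T.card = k), z ^ T.card :=
          sum_nonneg fun _ _ => by positivity
        linarith
    _ = _ := by ring

lemma dichotomy {R : V → V → Prop} (h : ℕ) (c : V) (l : List V) (hl : (c :: l).IsChain R) :
    (∃ w, w <+: l ∧ (∀ v ∈ w, dist R c v ≤ h) ∧ Hits R c h w) ∨
      ∃ J, J < h ∧ (∀ v ∈ l, dist R c v ≤ J) ∧ Hits R c J l := by
  induction l using List.reverseRecOn with
  | nil =>
    rcases Nat.eq_zero_or_pos h with rfl | hh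
    · exact Or.inl ⟨[], List.prefix_rfl, by simp, fun i h1 h2 => by omega⟩
    · exact Or.inr ⟨0, hh, by simp, fun i h1 h2 => by omega⟩
  | append_singleton l v ih =>
    rw [← List.cons_append, List.isChain_append] at hl
    obtain ⟨h1, -, h2⟩ := hl
    rcases ih h1 with ⟨w, hw, h3⟩ | ⟨J, hJ, h3, h4⟩
    · exact Or.inl ⟨w, hw.trans (List.prefix_append _ _), h3⟩
    have h5 : R ((c :: l).getLast (List.cons_ne_nil _ _)) v :=
      h2 _ (List.getLast?_eq_some_getLast _) v (by simp)
    have h6 : dist R c v ≤ J + 1 := by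
      rcases List.mem_cons.mp (List.getLast_mem (List.cons_ne_nil c l)) with h7 | h7
      · rw [h7] at h5
        exact (dist_le (Wk.single h5)).trans (by omega)
      · obtain ⟨i, -, -, hw⟩ := chain_wk h1 _ h7
        have := dist_le ((wk_dist hw).append (Wk.single h5))
        have := h3 _ h7
        omega
    have h7 : ∀ K, J ≤ K → dist R c v ≤ K → ∀ u ∈ l ++ [v], dist R c u ≤ K := by
      intro K hK hv u hu
      rcases List.mem_append.mp hu with hu | hu
      · exact (h3 u hu).trans hK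
      · rw [List.mem_singleton.mp hu]
        exact hv
    by_cases h8 : dist R c v ≤ J
    · refine Or.inr ⟨J, hJ, h7 J le_rfl h8, fun i i1 i2 => ?_⟩
      obtain ⟨u, hu, hD⟩ := h4 i i1 i2
      exact ⟨u, List.mem_append_left _ hu, hD⟩
    have h9 : Hits R c (J + 1) (l ++ [v]) := by
      intro i i1 i2
      by_cases hi : i ≤ J
      · obtain ⟨u, hu, hD⟩ := h4 i i1 hi
        exact ⟨u, List.mem_append_left _ hu, hD⟩
      · exact ⟨v, by simp, by omega⟩
    by_cases h10 : J + 1 = h
    · subst h10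
      exact Or.inl ⟨_, List.prefix_rfl, h7 _ (by omega) h6, h9⟩
    · exact Or.inr ⟨J + 1, by omega, h7 _ (by omega) h6, h9⟩

lemma cover_out [Fintype V] {R : V → V → Prop} (k h : ℕ) (c : V) (l : List V) (hk : l.length = k)
    (hl : (c :: l).IsChain R) : ∃ w ∈ win R k h c, w <+: l := by
  rcases dichotomy h c l hl with ⟨w, hw, h1, h2⟩ | ⟨J, hJ, h1, -⟩
  · refine ⟨w, mem_win.mpr ⟨hk ▸ hw.length_le, ?_, h1, Or.inr h2⟩, hw⟩
    obtain ⟨t, rfl⟩ := hw
    exact List.IsChain.left_of_append (l₁ := c :: w) (l₂ := t) hl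
  · exact ⟨l, mem_win.mpr ⟨hk.le, hl, fun v hv => (h1 v hv).trans hJ.le, Or.inl hk⟩,
      List.prefix_rfl⟩

lemma chain_rev {R : V → V → Prop} {p : List V} {c : V} (hl : (p ++ [c]).IsChain R) :
    (c :: p.reverse).IsChain fun a b => R b a := by
  have := (List.isChain_reverse (R := fun a b => R b a) (l := p ++ [c])).mpr hl
  simpa using this

lemma cover_in_aux [Fintype V] {R : V → V → Prop} (k : ℕ) {h : ℕ} (hh : 1 ≤ h) (l : List V)
    (hl : l.IsChain R) (hk : l.length ≤ k + 1) :
    l = [] ∨ (∃ c, ∃ w ∈ win (fun a b => R b a) k h c, w.reverse ++ [c] <+: l) ∨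
      ∃ p c, l = p ++ [c] ∧ ∀ v ∈ p, dist (fun a b => R b a) c v < h := by
  induction l using List.reverseRecOn with
  | nil => exact Or.inl rfl
  | append_singleton l c ih =>
    right
    have hlen : l.length ≤ k := by simpa using hk
    rcases ih hl.left_of_append (by omega) with
      rfl | ⟨c', w, hw, h1⟩ | ⟨p, c', rfl, h1⟩
    · exact Or.inr ⟨[], c, rfl, by simp⟩
    · exact Or.inl ⟨c', w, hw, h1.trans (List.prefix_append _ _)⟩
    have h2 := chain_rev hl
    have h3 : (c :: c' :: p.reverse).IsChain fun a b => R b a := by simpa using h2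
    obtain ⟨h4, h5⟩ := List.isChain_cons_cons.mp h3
    have h6 : ∀ v ∈ (p ++ [c']).reverse, dist (fun a b => R b a) c v ≤ h := by
      intro v hv
      rcases List.mem_append.mp (List.mem_reverse.mp hv) with hv | hv
      · obtain ⟨i, -, -, hw⟩ := chain_wk h5 v (List.mem_reverse.mpr hv)
        have := dist_le ((Wk.single (R := fun a b => R b a) h4).append (wk_dist hw))
        have := h1 v hv
        omega
      · rw [List.mem_singleton.mp hv]
        exact (dist_le (Wk.single (R := fun a b => R b a) h4)).trans hh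
    rcases dichotomy h c _ h2 with ⟨w, hw, -, h7⟩ | ⟨J, hJ, h7, -⟩
    · refine Or.inl ⟨c, (p ++ [c']).reverse, mem_win.mpr ⟨by simpa using hlen, h2, h6,
        Or.inr fun i i1 i2 => ?_⟩, by rw [List.reverse_reverse]⟩
      obtain ⟨u, hu, hD⟩ := h7 i i1 i2
      exact ⟨u, hw.subset hu, hD⟩
    · exact Or.inr ⟨_, c, rfl, fun v hv => lt_of_le_of_lt (h7 v (List.mem_reverse.mpr hv)) hJ⟩

lemma cover_in [Fintype V] {R : V → V → Prop} (k : ℕ) {h : ℕ} (hh : 1 ≤ h) (l : List V)
    (hl : l.IsChain R) (hk : l.length = k + 1) :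
    ∃ c, ∃ w ∈ win (fun a b => R b a) k h c, w.reverse ++ [c] <+: l := by
  rcases cover_in_aux k hh l hl hk.le with rfl | h1 | ⟨p, c, rfl, h1⟩
  · simp at hk
  · exact h1
  · have hp : p.reverse.length = k := by simpa using hk
    exact ⟨c, p.reverse, mem_win.mpr ⟨hp.le, chain_rev hl,
      fun v hv => (h1 v (List.mem_reverse.mp hv)).le, Or.inl hp⟩, by rw [List.reverse_reverse]⟩

lemma ball_card_add [Fintype V] {R : V → V → Prop} {k : ℕ} (hR : Good R k) {h₁ h₂ : ℕ}
    (hh : h₁ + h₂ ≤ k) (c : V) :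
    (ball R h₁ c).card + (ball (fun a b => R b a) h₂ c).card + 1 ≤ Fintype.card V := by
  classical
  have hd : Disjoint (ball R h₁ c) (ball (fun a b => R b a) h₂ c) := by
    rw [disjoint_left]
    intro v h1 h2
    obtain ⟨a1, a2⟩ := (mem_filter.mp h1).2
    obtain ⟨b1, b2⟩ := (mem_filter.mp h2).2
    have := hR.lt (by omega) ((wk_dist_of_pos a1).append (wk_dist_of_pos b1).flip)
    omega
  have hc : ∀ (S : V → V → Prop) (h : ℕ), c ∉ ball S h c := by
    intro S h h1
    have h2 := (mem_filter.mp h1).2.1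
    have h3 : dist S c c ≤ 0 := dist_le (i := 0) rfl
    omega
  rw [← card_union_of_disjoint hd, ← card_insert_of_notMem (a := c)
    (fun h => (mem_union.mp h).elim (hc _ _) (hc _ _))]
  exact card_le_univ _

/-- The main inequality for a nonzero sub-invariant vector. -/
theorem one_le_omega [Fintype V] [DecidableEq V] {R : V → V → Prop} [DecidableRel R] {k : ℕ}
    (hR : Good R k) {h₁ h₂ : ℕ} (hh : h₁ + h₂ ≤ k) (hh₂ : 1 ≤ h₂) {x : V → ℝ} {z : ℝ}
    (hz : 0 ≤ z) (hx0 : ∀ v, 0 ≤ x v) (hx : ∀ u, x u ≤ z * ∑ v, if R u v then x v else 0)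
    (hne : ∃ v, 0 < x v) :
    1 ≤ Fintype.card V * z * (((1 / 4) ^ h₁ + (1 / 2) ^ k) * ((1 / 4) ^ h₂ + (1 / 2) ^ k)) *
      (1 + z) ^ (2 * (Fintype.card V - 1)) := by
  obtain ⟨v₀, hv₀⟩ := hne
  obtain ⟨b, -, hb⟩ := exists_max_image univ x ⟨v₀, mem_univ _⟩
  have hb0 : 0 < x b := hv₀.trans_le (hb _ (mem_univ _))
  have hout : ∀ c, x c ≤
      ((1 / 4) ^ h₁ + (1 / 2) ^ k) * (1 + z) ^ (2 * (ball R h₁ c).card) * x b := by
    intro c
    refine (stop_le hz hx0 hx k c (win R k h₁ c) id fun l h1 h2 =>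
      cover_out k h₁ c l h1 h2).trans ?_
    refine (sum_le_sum fun l _ =>
      mul_le_mul_of_nonneg_left (hb _ (mem_univ _)) (pow_nonneg hz _)).trans ?_
    rw [← sum_mul]
    exact mul_le_mul_of_nonneg_right (sum_win_le hR h₁ c hz) hb0.le
  have hin := stop_le hz hx0 hx (k + 1) b
    ((univ : Finset V).sigma fun c => win (fun a b => R b a) k h₂ c)
    (fun p => p.2.reverse ++ [p.1]) fun l h1 h2 => by
      obtain ⟨c, w, hw, h3⟩ := cover_in k hh₂ l h2.tail h1
      exact ⟨⟨c, w⟩, mem_sigma.mpr ⟨mem_univ _, hw⟩, h3⟩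
  rw [sum_sigma] at hin
  have hc : ∀ c, ∑ w ∈ win (fun a b => R b a) k h₂ c,
      z ^ (w.reverse ++ [c]).length * x ((w.reverse ++ [c]).getLastD b) ≤
      z * (((1 / 4) ^ h₁ + (1 / 2) ^ k) * ((1 / 4) ^ h₂ + (1 / 2) ^ k)) *
        (1 + z) ^ (2 * (Fintype.card V - 1)) * x b := by
    intro c
    have h1 : ∑ w ∈ win (fun a b => R b a) k h₂ c,
        z ^ (w.reverse ++ [c]).length * x ((w.reverse ++ [c]).getLastD b) =
        z * ((∑ w ∈ win (fun a b => R b a) k h₂ c, z ^ w.length) * x c) := by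
      rw [sum_mul, mul_sum]
      refine sum_congr rfl fun w _ => ?_
      simp only [List.length_append, List.length_reverse, List.length_singleton,
        List.getLastD_concat]
      ring
    have h2 := mul_le_mul (sum_win_le hR.flip h₂ c hz) (hout c) (hx0 c) (by positivity)
    have h3 : (1 + z) ^ (2 * (ball (fun a b => R b a) h₂ c).card) *
        (1 + z) ^ (2 * (ball R h₁ c).card) ≤ (1 + z) ^ (2 * (Fintype.card V - 1)) := by
      rw [← pow_add]
      have := ball_card_add hR hh c
      exact pow_le_pow_right₀ (by linarith) (by omega)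
    rw [h1]
    calc z * ((∑ w ∈ win (fun a b => R b a) k h₂ c, z ^ w.length) * x c)
        ≤ z * (((1 / 4) ^ h₂ + (1 / 2) ^ k) * (1 + z) ^ (2 * (ball (fun a b => R b a) h₂ c).card) *
          (((1 / 4) ^ h₁ + (1 / 2) ^ k) * (1 + z) ^ (2 * (ball R h₁ c).card) * x b)) :=
          mul_le_mul_of_nonneg_left h2 hz
      _ = z * (((1 / 4) ^ h₁ + (1 / 2) ^ k) * ((1 / 4) ^ h₂ + (1 / 2) ^ k)) *
          ((1 + z) ^ (2 * (ball (fun a b => R b a) h₂ c).card) *
            (1 + z) ^ (2 * (ball R h₁ c).card)) * x b := by ring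
      _ ≤ _ := by gcongr
  have h4 := hin.trans (sum_le_sum fun c _ => hc c)
  rw [sum_const, card_univ, nsmul_eq_mul] at h4
  refine le_of_mul_le_mul_right ?_ hb0
  linarith

end Pool.Agent.MP_ad5ca6_co
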